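import Mathlib
import Pool.Agent.N212.KS.Stm

/-!
# KS/ASY (helper547): growth of the ample height along orbits
-/

set_option autoImplicit false

namespace Pool.Agent.N547.KS

open Pool.Agent.N212.KS

/-- ASY: growth of the ample height along orbits. -/
theorem t_ASY.{u, v, w, z} (hper : S_PER.{u, v, w}) : S_ASY.{u, v, w, z} := by
  intro X N G ι _ _ _ _ _ _ D P E Z c hZ hC x hx hpos f d hd
  obtain ⟨⟨C1, h1⟩, h2, A, B, hA, h3⟩ := hC
  obtain ⟨⟨i0, hi0⟩, hmax⟩ := hd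
  obtain ⟨C2, hC2⟩ := D.h_bound (E.ℓ i0)
  have hi0' : E.χ i0 f = d := hi0
  have hle : ∀ j, E.χ j f ≤ d := fun j => hmax ⟨j, rfl⟩
  have hd0 : 0 < d := hi0' ▸ E.χ_pos i0 f
  have hnZ : ∀ n : ℕ, f ^ n • x ∉ Z := fun n h => hx ((hZ (f ^ n) x).1 h)
  have hcn : ∀ j (n : ℕ), c j (f ^ n • x) = E.χ j f ^ n * c j x := by
    intro j n
    rw [h2 j (f ^ n) x hx, map_pow]
  have hS0 : 0 ≤ ∑ j, c j x := Finset.sum_nonneg fun j _ => (hpos j).le
  have hup : ∀ n : ℕ, D.H (f ^ n • x) ≤ A * (∑ j, c j x) * d ^ n + |B| := by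
    intro n
    have h4 := h3 _ (hnZ n)
    have h5 : ∑ i, c i (f ^ n • x) ≤ (∑ j, c j x) * d ^ n := by
      rw [Finset.sum_mul]
      refine Finset.sum_le_sum fun j _ => ?_
      rw [hcn, mul_comm]
      exact mul_le_mul_of_nonneg_left (pow_le_pow_left₀ (E.χ_pos j f).le (hle j) n) (hpos j).le
    have h6 := mul_le_mul_of_nonneg_left h5 hA.le
    have h7 := le_abs_self B
    linarith
  have hd1 : 1 ≤ d := by
    by_contra hlt
    push Not at hlt
    obtain ⟨m, hm, hfix⟩ := hper D P f x (A * (∑ j, c j x) + |B|) fun n =>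
      (hup n).trans (by
        have h4 : d ^ n ≤ 1 := pow_le_one₀ hd0.le hlt.le
        have h5 : 0 ≤ A * ∑ j, c j x := mul_nonneg hA.le hS0
        nlinarith)
    have h5 := hcn i0 m
    rw [hfix, hi0'] at h5
    have h6 : d ^ m < 1 := pow_lt_one₀ hd0.le hlt hm.ne'
    have h7 := hpos i0
    nlinarith
  refine ⟨hd1, c i0 x / (|C1| + |C2| + 1), A * (∑ j, c j x) + |B|, div_pos (hpos i0)
    (by positivity), fun n => ⟨?_, ?_⟩⟩
  · have h4 := h1 i0 _ (hnZ n)
    have h5 := hC2 (f ^ n • x)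
    rw [hcn, hi0'] at h4
    have hH := D.one_le_H (f ^ n • x)
    have hs : √(D.H (f ^ n • x)) ≤ D.H (f ^ n • x) := by
      rw [Real.sqrt_le_left (by linarith)]
      nlinarith
    have hs0 : 0 ≤ √(D.H (f ^ n • x)) := Real.sqrt_nonneg _
    have h6 : C1 * √(D.H (f ^ n • x)) ≤ |C1| * D.H (f ^ n • x) :=
      (mul_le_mul_of_nonneg_right (le_abs_self C1) hs0).trans
        (mul_le_mul_of_nonneg_left hs (abs_nonneg _))
    have h7 : C2 * D.H (f ^ n • x) ≤ |C2| * D.H (f ^ n • x) :=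
      mul_le_mul_of_nonneg_right (le_abs_self C2) (by linarith)
    have h8 := (abs_le.1 h4).2
    have h9 := (abs_le.1 h5).2
    rw [div_mul_eq_mul_div, div_le_iff₀ (by positivity)]
    nlinarith
  · have h4 : 1 ≤ d ^ n := one_le_pow₀ hd1
    have h5 := abs_nonneg B
    have h6 := hup n
    nlinarith

end Pool.Agent.N547.KS
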