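import Mathlib
import Pool.Agent.N604.MW.Stm

/-!
# Project MW (helper604), task DIO: almost every polynomial is diophantine
-/

set_option autoImplicit false

namespace Pool.Agent.N547.MW

open Finset MeasureTheory Pool.Agent.N604.MW Filter

lemma ae_scale (P : ℝ → Prop) (h : ∀ᵐ x : ℝ, P x) (a : ℝ) (ha : a ≠ 0) : ∀ᵐ t : ℝ, P (a * t) := by
  rw [ae_iff] at h ⊢
  have e : {t | ¬ P (a * t)} = (fun t => a * t) ⁻¹' {x | ¬ P x} := rfl
  rw [e, Real.volume_preimage_mul_left ha, h, mul_zero]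

/-- the diophantine condition for a number -/
lemma dio_of (x : ℝ) (hx : Irrational x) (hL : ¬ LiouvilleWith 3 x) :
    ∃ κ : ℝ, 0 < κ ∧ ∀ m n : ℤ, m ≠ 0 → κ / (m : ℝ) ^ 2 ≤ |m * x - n| := by
  unfold LiouvilleWith at hL
  push Not at hL
  have h1 := hL 1
  rw [eventually_atTop] at h1
  obtain ⟨N, hN⟩ := h1
  -- the distance to the nearest integer
  have hd : ∀ n : ℕ, 1 ≤ n → 0 < |(n : ℝ) * x - round ((n : ℝ) * x)| := by
    intro n hn
    rw [abs_pos, sub_ne_zero]
    intro h
    have h2 : Irrational ((n : ℝ) * x) := hx.natCast_mul (by omega)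
    exact h2.ne_int _ h
  -- a positive lower bound for the small n
  have hsmall : ∀ M : ℕ, ∃ κ : ℝ, 0 < κ ∧ κ ≤ 1 ∧ ∀ n : ℕ, 1 ≤ n → n < M →
      κ ≤ |(n : ℝ) * x - round ((n : ℝ) * x)| := by
    intro M
    induction M with
    | zero => exact ⟨1, one_pos, le_rfl, fun n _ h => absurd h (Nat.not_lt_zero n)⟩
    | succ M ih =>
      obtain ⟨κ, hκ, hκ1, h⟩ := ih
      rcases Nat.eq_zero_or_pos M with h0 | h0
      · exact ⟨κ, hκ, hκ1, fun n hn1 hn2 => absurd hn2 (by omega)⟩
      · refine ⟨min κ |(M : ℝ) * x - round ((M : ℝ) * x)|, lt_min hκ (hd M h0), (min_le_left _ _).trans hκ1, ?_⟩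
        intro n hn1 hn2
        rcases Nat.lt_succ_iff_lt_or_eq.1 hn2 with h3 | rfl
        · exact (min_le_left _ _).trans (h n hn1 h3)
        · exact min_le_right _ _
  obtain ⟨κ, hκ, hκ1, hs⟩ := hsmall (N + 1)
  have main : ∀ n : ℕ, 1 ≤ n → ∀ m : ℤ, κ / (n : ℝ) ^ 2 ≤ |(n : ℝ) * x - m| := by
    intro n hn m
    have hn1 : (1 : ℝ) ≤ n := by exact_mod_cast hn
    have hn0 : (0 : ℝ) < n := by linarith
    rcases Nat.lt_or_ge n (N + 1) with h2 | h2
    · calc κ / (n : ℝ) ^ 2 ≤ κ := div_le_self hκ.le (one_le_pow₀ hn1)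
        _ ≤ |(n : ℝ) * x - round ((n : ℝ) * x)| := hs n hn h2
        _ ≤ |(n : ℝ) * x - m| := round_le _ _
    · have h3 := hN n (by omega) m (by
        intro h
        have : Irrational ((n : ℝ) * x) := hx.natCast_mul (by omega)
        apply this.ne_int m
        rw [h]
        field_simp)
      have e3 : ((n : ℝ) ^ (3 : ℝ)) = (n : ℝ) ^ (3 : ℕ) := by
        rw [← Real.rpow_natCast]
        norm_num
      rw [e3] at h3
      have h4 : |(n : ℝ) * x - m| = n * |x - m / n| := by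
        rw [← abs_of_pos hn0, ← abs_mul, abs_of_pos hn0]
        congr 1
        field_simp
      rw [h4]
      calc κ / (n : ℝ) ^ 2 ≤ 1 / (n : ℝ) ^ 2 := by gcongr
        _ = n * (1 / (n : ℝ) ^ 3) := by field_simp
        _ ≤ n * |x - m / n| := mul_le_mul_of_nonneg_left h3 hn0.le
  refine ⟨κ, hκ, fun m n hm => ?_⟩
  rcases lt_or_gt_of_ne hm with h | h
  · have h5 := main m.natAbs (by omega) (-n)
    have e : ((m.natAbs : ℕ) : ℝ) = -(m : ℝ) := by
      have : ((m.natAbs : ℤ) : ℝ) = ((-m : ℤ) : ℝ) := by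
        congr 1
        omega
      push_cast at this
      rw [← this]
      simp
    rw [e] at h5
    have e2 : -(m : ℝ) * x - ((-n : ℤ) : ℝ) = -(m * x - n) := by push_cast; ring
    rw [e2, abs_neg, neg_sq] at h5
    exact h5
  · have h5 := main m.natAbs (by omega) n
    have e : ((m.natAbs : ℕ) : ℝ) = (m : ℝ) := by
      have : ((m.natAbs : ℤ) : ℝ) = ((m : ℤ) : ℝ) := by
        congr 1
        omega
      rw [← this]
      simp
    rw [e] at h5
    exact h5

theorem dio : S_DIO := by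
  intro d c hc
  cases d with
  | zero =>
    refine Eventually.of_forall fun θ => ⟨1, one_pos, fun j => j.elim0⟩
  | succ d =>
    have h1 : ∀ᵐ x : ℝ, Irrational x ∧ ¬ LiouvilleWith 3 x := by
      have h2 : ∀ᵐ x : ℝ, Irrational x := (Set.countable_range (Rat.cast : ℚ → ℝ)).ae_notMem volume
      filter_upwards [h2, ae_not_liouvilleWith] with x hx hx2
      exact ⟨hx, hx2 3 (by norm_num)⟩
    have h3 := ae_scale _ h1 c⁻¹ (inv_ne_zero hc.ne')
    have h4 := (Measure.quasiMeasurePreserving_eval (μ := fun _ : Fin (d + 1) => (volume : Measure ℝ))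
      (Fin.last d)).ae h3
    have h5 : (Measure.pi fun _ : Fin (d + 1) => (volume : Measure ℝ)) = volume := rfl
    rw [h5] at h4
    filter_upwards [h4] with θ hθ
    obtain ⟨κ, hκ, h⟩ := dio_of _ hθ.1 hθ.2
    refine ⟨c * κ, mul_pos hc hκ, fun j hj m n hm => ?_⟩
    have hj' : j = Fin.last d := Fin.ext (by simp [Fin.val_last]; omega)
    have h6 := h m n hm
    have e : (m : ℝ) * θ j - n * c = c * (m * (c⁻¹ * Function.eval (Fin.last d) θ) - n) := by
      rw [hj']
      simp only [Function.eval]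
      field_simp
    rw [e, abs_mul, abs_of_pos hc, mul_div_assoc]
    exact mul_le_mul_of_nonneg_left h6 hc.le

end Pool.Agent.N547.MW
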