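import Mathlib
import Pool.Agent.N604.MW.Stm

/-!
# Project MW (helper604), task MEAN: Borel-Cantelli for the mean value
-/

set_option autoImplicit false

namespace Pool.Agent.N547.MW

open Finset MeasureTheory Pool.Agent.N604.MW Filter

/-- the set of a pair of tuples -/
def Sp (d : ℕ) (c B : ℝ) (p : (Fin (d + 1) → ℕ) × (Fin (d + 1) → ℕ)) : Set (Fin d → ℝ) :=
  {θ | (∀ j, |θ j| ≤ B) ∧ |∑ i, (PP d c 0 θ (p.1 i) - PP d c 0 θ (p.2 i))| ≤ (d : ℝ) + 1}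

lemma measurable_Sp (d : ℕ) (c B : ℝ) (p : (Fin (d + 1) → ℕ) × (Fin (d + 1) → ℕ)) :
    MeasurableSet (Sp d c B p) := by
  have h1 : IsClosed {θ : Fin d → ℝ | ∀ j, |θ j| ≤ B} := by
    simp only [Set.ofPred_forall]
    exact isClosed_iInter fun j => isClosed_le (by fun_prop) continuous_const
  have h2 : IsClosed {θ : Fin d → ℝ | |∑ i, (PP d c 0 θ (p.1 i) - PP d c 0 θ (p.2 i))| ≤ (d : ℝ) + 1} := by
    refine isClosed_le ?_ continuous_const
    unfold PP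
    fun_prop
  exact (h1.inter h2).measurableSet

open Classical in
lemma card_eq (d : ℕ) (c B : ℝ) (X : ℕ) (θ : Fin d → ℝ) (hθ : ∀ j, |θ j| ≤ B) :
    ((Pairs d c θ X).card : ENNReal) =
      ∑ p ∈ Box (d + 1) X ×ˢ Box (d + 1) X, (Sp d c B p).indicator (1 : (Fin d → ℝ) → ENNReal) θ := by
  unfold Pairs
  rw [card_filter, Nat.cast_sum]
  refine sum_congr rfl fun p _ => ?_
  by_cases hp : |∑ i, (PP d c 0 θ (p.1 i) - PP d c 0 θ (p.2 i))| ≤ (d : ℝ) + 1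
  · rw [if_pos hp, Set.indicator_of_mem (show θ ∈ Sp d c B p from ⟨hθ, hp⟩)]
    simp
  · rw [if_neg hp, Set.indicator_of_notMem (show θ ∉ Sp d c B p from fun h => hp h.2)]
    simp

lemma lintegral_eq (d : ℕ) (c B : ℝ) (X : ℕ) :
    ∫⁻ θ : Fin d → ℝ, ∑ p ∈ Box (d + 1) X ×ˢ Box (d + 1) X, (Sp d c B p).indicator (1 : (Fin d → ℝ) → ENNReal) θ =
      ∑ p ∈ Box (d + 1) X ×ˢ Box (d + 1) X, volume (Sp d c B p) := by
  rw [lintegral_finsetSum]
  · refine sum_congr rfl fun p _ => ?_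
    rw [lintegral_indicator_one (measurable_Sp d c B p)]
  · intro p _
    exact measurable_one.indicator (measurable_Sp d c B p)

/-- the exceptional set -/
def Ex (d : ℕ) (c B : ℝ) (r : ℕ) (ν : ℕ) : Set (Fin d → ℝ) :=
  {θ | (∀ j, |θ j| ≤ B) ∧ ((2 : ℝ) ^ ν) ^ ((d : ℝ) + 1 + 1 / (r : ℝ)) < ((Pairs d c θ (2 ^ ν)).card : ℝ)}

lemma vol_Ex (d : ℕ) (c B C : ℝ) (r : ℕ) (hC : 0 < C)
    (h : ∀ X : ℕ, 1 ≤ X → ∑ p ∈ Box (d + 1) X ×ˢ Box (d + 1) X, volume (Sp d c B p) ≤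
      ENNReal.ofReal (C * (X : ℝ) ^ (d + 1) * (1 + Real.log X))) (ν : ℕ) :
    volume (Ex d c B r ν) ≤ ENNReal.ofReal (C * (1 + ν * Real.log 2) * ((2 : ℝ) ^ (-(1 / (r : ℝ)))) ^ ν) := by
  set X : ℕ := 2 ^ ν with hX
  have hXR : (X : ℝ) = (2 : ℝ) ^ ν := by rw [hX]; push_cast; rfl
  have hXpos : (0 : ℝ) < (2 : ℝ) ^ ν := by positivity
  set T : ℝ := ((2 : ℝ) ^ ν) ^ ((d : ℝ) + 1 + 1 / (r : ℝ)) with hT
  have hTpos : 0 < T := Real.rpow_pos_of_pos hXpos _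
  have hsub : Ex d c B r ν ⊆ {θ : Fin d → ℝ | ENNReal.ofReal T ≤
      ∑ p ∈ Box (d + 1) X ×ˢ Box (d + 1) X, (Sp d c B p).indicator (1 : (Fin d → ℝ) → ENNReal) θ} := by
    rintro θ ⟨h1, h2⟩
    simp only [Set.mem_ofPred_eq]
    rw [← card_eq d c B X θ h1]
    have e : (((Pairs d c θ X).card : ℕ) : ENNReal) = ENNReal.ofReal ((Pairs d c θ X).card : ℝ) := by
      rw [ENNReal.ofReal_natCast]
    rw [e]
    exact ENNReal.ofReal_le_ofReal h2.le
  have hmeas : Measurable fun θ : Fin d → ℝ =>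
      ∑ p ∈ Box (d + 1) X ×ˢ Box (d + 1) X, (Sp d c B p).indicator (1 : (Fin d → ℝ) → ENNReal) θ :=
    Finset.measurable_fun_sum _ fun p _ => measurable_one.indicator (measurable_Sp d c B p)
  have h3 := meas_ge_le_lintegral_div (μ := (volume : Measure (Fin d → ℝ))) hmeas.aemeasurable
    (ε := ENNReal.ofReal T) (by simpa using hTpos) ENNReal.ofReal_ne_top
  rw [lintegral_eq] at h3
  refine (measure_mono hsub).trans (h3.trans ?_)
  have h4 := h X Nat.one_le_two_pow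
  calc (∑ p ∈ Box (d + 1) X ×ˢ Box (d + 1) X, volume (Sp d c B p)) / ENNReal.ofReal T
      ≤ ENNReal.ofReal (C * (X : ℝ) ^ (d + 1) * (1 + Real.log X)) / ENNReal.ofReal T :=
        ENNReal.div_le_div_right h4 _
    _ = ENNReal.ofReal (C * (X : ℝ) ^ (d + 1) * (1 + Real.log X) / T) := by
        rw [ENNReal.ofReal_div_of_pos hTpos]
    _ = _ := by
        congr 1
        have e1 : Real.log X = ν * Real.log 2 := by rw [hXR, Real.log_pow]
        have e2 : T = ((2 : ℝ) ^ ν) ^ (d + 1) * ((2 : ℝ) ^ ν) ^ (1 / (r : ℝ)) := by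
          rw [hT, Real.rpow_add hXpos]
          congr 1
          have e4 : ((d : ℝ) + 1) = ((d + 1 : ℕ) : ℝ) := by push_cast; rfl
          rw [e4]
          exact Real.rpow_natCast ((2 : ℝ) ^ ν) (d + 1)
        have e3 : ((2 : ℝ) ^ (-(1 / (r : ℝ)))) ^ ν = (((2 : ℝ) ^ ν) ^ (1 / (r : ℝ)))⁻¹ := by
          rw [← Real.rpow_natCast, ← Real.rpow_natCast, ← Real.rpow_mul (by norm_num), ← Real.rpow_mul (by norm_num),
            ← Real.rpow_neg (by norm_num)]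
          congr 1
          ring
        rw [e1, e3, e2, hXR]
        have h5 : ((2 : ℝ) ^ ν) ^ (1 / (r : ℝ)) ≠ 0 := (Real.rpow_pos_of_pos hXpos _).ne'
        field_simp

lemma summable_aux (C q : ℝ) (hq0 : 0 ≤ q) (hq : q < 1) :
    Summable fun ν : ℕ => C * (1 + ν * Real.log 2) * q ^ ν := by
  have h1 : Summable fun ν : ℕ => q ^ ν := summable_geometric_of_lt_one hq0 hq
  have h2 : Summable fun ν : ℕ => (ν : ℝ) ^ 1 * q ^ ν :=
    summable_pow_mul_geometric_of_norm_lt_one 1 (by rwa [Real.norm_of_nonneg hq0])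
  have h3 := (h1.mul_left C).add (h2.mul_left (C * Real.log 2))
  refine h3.congr fun ν => ?_
  ring

theorem mean (h : S_SUM) : S_MEAN := by
  intro d c hd hc
  have key : ∀ B r : ℕ, ∀ᵐ θ : Fin d → ℝ, ∀ᶠ ν : ℕ in atTop, θ ∉ Ex d c (B + 1 : ℝ) (r + 1) ν := by
    intro B r
    obtain ⟨C, hC, hs⟩ := h d c (B + 1) hd hc (by positivity)
    apply ae_eventually_notMem
    have h1 : ∀ ν, volume (Ex d c (B + 1 : ℝ) (r + 1) ν) ≤
        ENNReal.ofReal (C * (1 + ν * Real.log 2) * ((2 : ℝ) ^ (-(1 / ((r + 1 : ℕ) : ℝ)))) ^ ν) :=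
      fun ν => vol_Ex d c (B + 1) C (r + 1) hC hs ν
    have hq : (2 : ℝ) ^ (-(1 / ((r + 1 : ℕ) : ℝ))) < 1 := by
      apply Real.rpow_lt_one_of_one_lt_of_neg (by norm_num)
      have : (0 : ℝ) < 1 / ((r + 1 : ℕ) : ℝ) := by positivity
      linarith
    have h2 := (summable_aux C _ (by positivity) hq).tsum_ofReal_ne_top
    exact ne_top_of_le_ne_top h2 (ENNReal.tsum_le_tsum h1)
  have key2 : ∀ᵐ θ : Fin d → ℝ, ∀ B r : ℕ, ∀ᶠ ν : ℕ in atTop, θ ∉ Ex d c (B + 1 : ℝ) (r + 1) ν := by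
    rw [ae_all_iff]
    intro B
    rw [ae_all_iff]
    exact key B
  filter_upwards [key2] with θ hθ ε hε
  obtain ⟨B, hB⟩ : ∃ B : ℕ, ∀ j, |θ j| ≤ B := by
    obtain ⟨B, hB⟩ := exists_nat_ge (∑ j, |θ j|)
    exact ⟨B, fun j => (single_le_sum (fun i _ => abs_nonneg (θ i)) (mem_univ j)).trans hB⟩
  obtain ⟨r, hr⟩ := exists_nat_one_div_lt hε
  obtain ⟨ν0, h0⟩ := eventually_atTop.1 (hθ B r)
  refine ⟨ν0, fun ν hν => ?_⟩
  have h1 := h0 ν hν
  simp only [Ex, Set.mem_ofPred_eq, not_and, not_lt] at h1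
  have h2 := h1 (fun j => (hB j).trans (by linarith))
  refine h2.trans ?_
  apply Real.rpow_le_rpow_of_exponent_le (one_le_pow₀ (by norm_num))
  push_cast
  linarith

end Pool.Agent.N547.MW
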