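import Mathlib
import Pool.Agent.N604.MW.Stm

/-!
# Project MW (helper604), task SIZE: the size of the values on the box
-/

set_option autoImplicit false

namespace Pool.Agent.N547.MW

open Finset Pool.Agent.N604.MW

/-- the lower terms of the polynomial -/
lemma lower_le (d : ℕ) (b : ℝ) (θ : Fin d → ℝ) (x : ℝ) (hx : 1 ≤ x) :
    |∑ j : Fin d, θ j * x ^ ((j : ℕ) + 1) + b| ≤ (∑ j, |θ j| + |b|) * x ^ d := by
  have hxd : ∀ k, k ≤ d → x ^ k ≤ x ^ d := fun k hk => pow_le_pow_right₀ hx hk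
  have h1 : |∑ j : Fin d, θ j * x ^ ((j : ℕ) + 1)| ≤ (∑ j, |θ j|) * x ^ d := by
    refine (abs_sum_le_sum_abs _ _).trans ?_
    rw [sum_mul]
    refine sum_le_sum fun j _ => ?_
    rw [abs_mul, abs_of_nonneg (by positivity : 0 ≤ x ^ ((j : ℕ) + 1))]
    exact mul_le_mul_of_nonneg_left (hxd _ (by have := j.2; omega)) (abs_nonneg _)
  have h2 : |b| ≤ |b| * x ^ d := le_mul_of_one_le_right (abs_nonneg _) (one_le_pow₀ hx)
  refine (abs_add_le _ _).trans ?_
  rw [add_mul]
  exact add_le_add h1 h2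

theorem size : S_SIZE := by
  intro d c b θ hc
  set A : ℝ := ∑ j, |θ j| + |b| with hA
  have hA0 : 0 ≤ A := by positivity
  set V : ℝ := ((d : ℝ) + 1) * ((c + A) * (2 * (d : ℝ) + 3) ^ (d + 1)) with hV
  refine ⟨⌈V⌉₊, ⌈A / c⌉₊ + 1, fun X n hX hn => ?_⟩
  have hX1 : (1 : ℝ) ≤ X := by exact_mod_cast (by omega : 1 ≤ X)
  have hXA : A ≤ c * X := by
    have h1 : A / c ≤ X := (Nat.le_ceil _).trans (by exact_mod_cast (by omega : ⌈A / c⌉₊ ≤ X))
    rwa [div_le_iff₀ hc, mul_comm] at h1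
  have hval : ∀ i, 0 ≤ PP d c b θ (n i) ∧ PP d c b θ (n i) ≤ (c + A) * (2 * (d : ℝ) + 3) ^ (d + 1) * (X : ℝ) ^ (d + 1) := by
    intro i
    have hi := Fintype.mem_piFinset.1 hn i
    rw [Finset.mem_Icc] at hi
    have hlo : X ≤ n i := by
      have : X ≤ 2 * ((i : ℕ) + 1) * X := Nat.le_mul_of_pos_left X (by omega)
      exact this.trans hi.1
    have hhi : n i ≤ (2 * d + 3) * X := by
      refine hi.2.trans ?_
      apply Nat.mul_le_mul_right
      have := i.2
      omega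
    have hlo' : (X : ℝ) ≤ n i := by exact_mod_cast hlo
    have hhi' : (n i : ℝ) ≤ (2 * (d : ℝ) + 3) * X := by exact_mod_cast hhi
    have hx1 : (1 : ℝ) ≤ n i := hX1.trans hlo'
    set x : ℝ := (n i : ℝ) with hx
    have hlow := abs_le.1 (lower_le d b θ x hx1)
    rw [← hA] at hlow
    have hxd : 0 ≤ x ^ d := by positivity
    constructor
    · unfold PP
      have h3 : A * x ^ d ≤ c * x ^ (d + 1) := by
        have : A ≤ c * x := hXA.trans (mul_le_mul_of_nonneg_left hlo' hc.le)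
        calc A * x ^ d ≤ (c * x) * x ^ d := mul_le_mul_of_nonneg_right this hxd
          _ = c * x ^ (d + 1) := by ring
      have := hlow.1
      linarith
    · unfold PP
      have h3 : A * x ^ d ≤ A * x ^ (d + 1) :=
        mul_le_mul_of_nonneg_left (pow_le_pow_right₀ hx1 (by omega)) hA0
      have h4 : (c + A) * x ^ (d + 1) ≤ (c + A) * ((2 * (d : ℝ) + 3) * X) ^ (d + 1) :=
        mul_le_mul_of_nonneg_left (pow_le_pow_left₀ (by linarith) hhi' _) (by positivity)
      rw [mul_pow] at h4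
      have := hlow.2
      calc c * x ^ (d + 1) + ∑ j : Fin d, θ j * x ^ ((j : ℕ) + 1) + b
          ≤ c * x ^ (d + 1) + A * x ^ (d + 1) := by linarith
        _ = (c + A) * x ^ (d + 1) := by ring
        _ ≤ _ := by rw [mul_assoc]; exact h4
  constructor
  · exact sum_nonneg fun i _ => Int.floor_nonneg.2 (hval i).1
  · have h5 : ((∑ i, ⌊PP d c b θ (n i)⌋ : ℤ) : ℝ) ≤ ((⌈V⌉₊ * (X : ℤ) ^ (d + 1) : ℤ) : ℝ) := by
      push_cast
      calc ∑ i, ((⌊PP d c b θ (n i)⌋ : ℤ) : ℝ)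
          ≤ ∑ i : Fin (d + 1), (c + A) * (2 * (d : ℝ) + 3) ^ (d + 1) * (X : ℝ) ^ (d + 1) :=
            sum_le_sum fun i _ => (Int.floor_le _).trans (hval i).2
        _ = V * (X : ℝ) ^ (d + 1) := by
            rw [sum_const, card_univ, Fintype.card_fin, nsmul_eq_mul, hV]
            push_cast
            ring
        _ ≤ _ := by
            exact mul_le_mul_of_nonneg_right (Nat.le_ceil V) (by positivity)
    exact_mod_cast h5

end Pool.Agent.N547.MW
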